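import Mathlib

namespace Pool.Agent.MP_fc1aea_an

/-- The dyadic cells of level `a`, in heap indexing (the children of `v` are `2v` and `2v+1`). -/
def V (a : ℕ) : Finset ℕ := Finset.Ico (2 ^ a) (2 ^ (a + 1))

/-- `J` is a descendant of `i` (or `i` itself). -/
def Desc (i J : ℕ) : Prop := ∃ l, J / 2 ^ l = i

noncomputable instance (i J : ℕ) : Decidable (Desc i J) := Classical.dec _

/-- The length of the cell `j`. -/
noncomputable def len (j : ℕ) : ℝ := ((2 : ℝ) ^ Nat.log 2 j)⁻¹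

theorem mem_V {a v : ℕ} : v ∈ V a ↔ 2 ^ a ≤ v ∧ v < 2 ^ (a + 1) := Finset.mem_Ico

theorem card_V (a : ℕ) : (V a).card = 2 ^ a := by
  rw [V, Nat.card_Ico, pow_succ]; omega

theorem V_zero : V 0 = {1} := by decide

theorem one_le_of_mem_V {a v : ℕ} (h : v ∈ V a) : 1 ≤ v :=
  le_trans Nat.one_le_two_pow (mem_V.1 h).1

theorem log_of_mem_V {a v : ℕ} (h : v ∈ V a) : Nat.log 2 v = a :=
  Nat.log_eq_of_pow_le_of_lt_pow (mem_V.1 h).1 (mem_V.1 h).2

theorem mem_V_log {v : ℕ} (h : 1 ≤ v) : v ∈ V (Nat.log 2 v) :=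
  mem_V.2 ⟨Nat.pow_log_le_self 2 (by omega), Nat.lt_pow_succ_log_self (by norm_num) v⟩

theorem level_unique {a b v : ℕ} (h : v ∈ V a) (h' : v ∈ V b) : a = b := by
  rw [← log_of_mem_V h, log_of_mem_V h']

theorem disjoint_V {a b : ℕ} (h : a ≠ b) : Disjoint (V a) (V b) :=
  Finset.disjoint_left.2 fun _ h1 h2 => h (level_unique h1 h2)

theorem lt_of_mem_V {a v : ℕ} (h : v ∈ V a) : a < v :=
  lt_of_lt_of_le Nat.lt_two_pow_self (mem_V.1 h).1

theorem len_of_mem_V {a v : ℕ} (h : v ∈ V a) : len v = ((2 : ℝ) ^ a)⁻¹ := by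
  rw [len, log_of_mem_V h]

theorem len_pos (j : ℕ) : 0 < len j := by unfold len; positivity

theorem len_one : len 1 = 1 := by simp [len]

theorem two_mul_mem_V {a v : ℕ} (h : v ∈ V a) : 2 * v ∈ V (a + 1) := by
  rw [mem_V] at *
  rw [pow_succ 2 (a + 1), pow_succ 2 a] at *
  omega

theorem two_mul_add_one_mem_V {a v : ℕ} (h : v ∈ V a) : 2 * v + 1 ∈ V (a + 1) := by
  rw [mem_V] at *
  rw [pow_succ 2 (a + 1), pow_succ 2 a] at *
  omega

theorem half_mem_V {a v : ℕ} (h : v ∈ V (a + 1)) : v / 2 ∈ V a := by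
  rw [mem_V] at *
  rw [pow_succ 2 (a + 1), pow_succ 2 a] at *
  omega

theorem div_mem_V {a l v : ℕ} (h : v ∈ V (a + l)) : v / 2 ^ l ∈ V a := by
  induction l generalizing v with
  | zero => simpa using h
  | succ l ih =>
    have := ih (half_mem_V h)
    rwa [Nat.div_div_eq_div_mul, ← pow_succ'] at this

theorem len_two_mul {j : ℕ} (h : 1 ≤ j) : len (2 * j) = len j / 2 := by
  rw [len_of_mem_V (two_mul_mem_V (mem_V_log h)), len, pow_succ]; field_simp

theorem len_two_mul_add_one {j : ℕ} (h : 1 ≤ j) : len (2 * j + 1) = len j / 2 := by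
  rw [len_of_mem_V (two_mul_add_one_mem_V (mem_V_log h)), len, pow_succ]; field_simp

theorem len_add {j : ℕ} (h : 1 ≤ j) : len j = len (2 * j) + len (2 * j + 1) := by
  rw [len_two_mul h, len_two_mul_add_one h]; ring

theorem sum_len (N : ℕ) : ∑ J ∈ V N, len J = 1 := by
  rw [Finset.sum_congr rfl fun J hJ => len_of_mem_V hJ, Finset.sum_const, card_V]
  simp

theorem sum_V_succ {M : Type*} [AddCommMonoid M] (N : ℕ) (f : ℕ → M) :
    ∑ J ∈ V (N + 1), f J = ∑ j ∈ V N, (f (2 * j) + f (2 * j + 1)) := by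
  rw [← Finset.sum_fiberwise_of_maps_to (s := V (N + 1)) (t := V N) (g := fun J => J / 2)
    (fun J hJ => half_mem_V hJ)]
  refine Finset.sum_congr rfl fun j hj => ?_
  have : (V (N + 1)).filter (fun J => J / 2 = j) = {2 * j, 2 * j + 1} := by
    ext J
    simp only [Finset.mem_filter, Finset.mem_insert, Finset.mem_singleton]
    constructor
    · rintro ⟨-, h⟩; omega
    · rintro (rfl | rfl)
      · exact ⟨two_mul_mem_V hj, by omega⟩
      · exact ⟨two_mul_add_one_mem_V hj, by omega⟩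
  rw [this, Finset.sum_pair (by omega)]

theorem Desc.refl (i : ℕ) : Desc i i := ⟨0, by simp⟩

theorem Desc.trans {i j k : ℕ} (h : Desc i j) (h' : Desc j k) : Desc i k := by
  obtain ⟨l, rfl⟩ := h
  obtain ⟨l', rfl⟩ := h'
  exact ⟨l' + l, by rw [Nat.div_div_eq_div_mul, pow_add]⟩

theorem Desc.le {i j : ℕ} (h : Desc i j) : i ≤ j := by
  obtain ⟨l, rfl⟩ := h
  exact Nat.div_le_self _ _

theorem desc_half (j : ℕ) : Desc (j / 2) j := ⟨1, by simp⟩

theorem desc_two_mul (j : ℕ) : Desc j (2 * j) := ⟨1, by omega⟩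

theorem desc_two_mul_add_one (j : ℕ) : Desc j (2 * j + 1) := ⟨1, by omega⟩

theorem desc_div (J l : ℕ) : Desc (J / 2 ^ l) J := ⟨l, rfl⟩

theorem Desc.total {i k J : ℕ} (h : Desc i J) (h' : Desc k J) : Desc i k ∨ Desc k i := by
  obtain ⟨l, rfl⟩ := h
  obtain ⟨l', rfl⟩ := h'
  rcases le_total l l' with h | h
  · obtain ⟨c, rfl⟩ := Nat.exists_eq_add_of_le h
    exact Or.inr ⟨c, by rw [Nat.div_div_eq_div_mul, pow_add]⟩
  · obtain ⟨c, rfl⟩ := Nat.exists_eq_add_of_le h
    exact Or.inl ⟨c, by rw [Nat.div_div_eq_div_mul, pow_add]⟩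

theorem desc_iff_children {i J : ℕ} :
    Desc i J ↔ J = i ∨ Desc (2 * i) J ∨ Desc (2 * i + 1) J := by
  constructor
  · rintro ⟨l, hl⟩
    rcases l with _ | l
    · left; simpa using hl
    · right
      rw [pow_succ, ← Nat.div_div_eq_div_mul] at hl
      rcases Nat.even_or_odd' (J / 2 ^ l) with ⟨k, hk | hk⟩
      · exact Or.inl ⟨l, by omega⟩
      · exact Or.inr ⟨l, by omega⟩
  · rintro (rfl | h | h)
    · exact Desc.refl _
    · exact (desc_two_mul i).trans h
    · exact (desc_two_mul_add_one i).trans h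

theorem desc_iff_half {i J : ℕ} : Desc i J ↔ J = i ∨ Desc i (J / 2) := by
  constructor
  · rintro ⟨l, hl⟩
    rcases l with _ | l
    · left; simpa using hl
    · exact Or.inr ⟨l, by rw [Nat.div_div_eq_div_mul, ← pow_succ', hl]⟩
  · rintro (rfl | h)
    · exact Desc.refl _
    · exact h.trans (desc_half J)

theorem Desc.eq_or_two_mul_le {i J : ℕ} (h : Desc i J) : J = i ∨ 2 * i ≤ J := by
  rcases desc_iff_children.1 h with h | h | h
  · exact Or.inl h
  · exact Or.inr h.le
  · exact Or.inr (by have := h.le; omega)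

theorem desc_iff {a N i J : ℕ} (hi : i ∈ V a) (hJ : J ∈ V N) :
    Desc i J ↔ a ≤ N ∧ J / 2 ^ (N - a) = i := by
  constructor
  · rintro ⟨l, hl⟩
    rcases le_or_gt l N with h | h
    · obtain ⟨c, rfl⟩ := Nat.exists_eq_add_of_le' h
      have := div_mem_V hJ
      rw [hl] at this
      obtain rfl := level_unique hi this
      exact ⟨by omega, by simpa using hl⟩
    · have h1 : J < 2 ^ l := lt_of_lt_of_le (mem_V.1 hJ).2 (Nat.pow_le_pow_right (by norm_num) h)
      rw [Nat.div_eq_of_lt h1] at hl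
      have := one_le_of_mem_V hi
      omega
  · rintro ⟨-, h⟩
    exact ⟨_, h⟩

theorem Desc.eq_of_mem_V {a i k J : ℕ} (h : Desc i J) (h' : Desc k J) (hi : i ∈ V a)
    (hk : k ∈ V a) : i = k := by
  rcases h.total h' with h | h
  · simpa using ((desc_iff hi hk).1 h).2.symm
  · simpa using ((desc_iff hk hi).1 h).2

theorem not_desc_both {i J : ℕ} (hi : 1 ≤ i) (h : Desc (2 * i) J) : ¬ Desc (2 * i + 1) J :=
  fun h' => by
    have := h.eq_of_mem_V h' (two_mul_mem_V (mem_V_log hi)) (two_mul_add_one_mem_V (mem_V_log hi))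
    omega

theorem desc_one {J : ℕ} (hJ : 1 ≤ J) : Desc 1 J := by
  have h : J ∈ V (0 + Nat.log 2 J) := by simpa using mem_V_log hJ
  have := div_mem_V h
  rw [V_zero, Finset.mem_singleton] at this
  exact ⟨_, this⟩

/-- An additive function of the cell is the sum of its values on the descendants of level `N`. -/
theorem sum_desc {M : Type*} [AddCommMonoid M] {w : ℕ → M} {a N i : ℕ} (hi : i ∈ V a) (haN : a ≤ N)
    (hw : ∀ b j, a ≤ b → b < N → j ∈ V b → w j = w (2 * j) + w (2 * j + 1)) :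
    w i = ∑ J ∈ (V N).filter (Desc i), w J := by
  induction N, haN using Nat.le_induction with
  | base =>
    have : (V a).filter (Desc i) = {i} := by
      ext J
      simp only [Finset.mem_filter, Finset.mem_singleton]
      exact ⟨fun h => (h.2.eq_of_mem_V (Desc.refl J) hi h.1).symm,
        fun h => by subst h; exact ⟨hi, Desc.refl _⟩⟩
    rw [this, Finset.sum_singleton]
  | succ N haN ih =>
    rw [ih fun b j h1 h2 h3 => hw b j h1 (by omega) h3, Finset.sum_filter, Finset.sum_filter,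
      sum_V_succ]
    refine Finset.sum_congr rfl fun j hj => ?_
    have h1 : Desc i (2 * j) ↔ Desc i j := by
      rw [desc_iff_half, show 2 * j / 2 = j by omega]
      refine ⟨fun h => h.resolve_left fun h => ?_, Or.inr⟩
      have := level_unique hi (h ▸ two_mul_mem_V hj)
      omega
    have h2 : Desc i (2 * j + 1) ↔ Desc i j := by
      rw [desc_iff_half, show (2 * j + 1) / 2 = j by omega]
      refine ⟨fun h => h.resolve_left fun h => ?_, Or.inr⟩
      have := level_unique hi (h ▸ two_mul_add_one_mem_V hj)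
      omega
    by_cases h : Desc i j
    · rw [if_pos h, if_pos (h1.2 h), if_pos (h2.2 h), hw N j haN (by omega) hj]
    · rw [if_neg h, if_neg (mt h1.1 h), if_neg (mt h2.1 h), add_zero]

theorem sum_V_eq {M : Type*} [AddCommMonoid M] {w : ℕ → M} {N : ℕ}
    (hw : ∀ b j, b < N → j ∈ V b → w j = w (2 * j) + w (2 * j + 1)) :
    w 1 = ∑ J ∈ V N, w J := by
  rw [sum_desc (a := 0) (N := N) (by simp [V_zero]) (Nat.zero_le N) fun b j _ h2 h3 => hw b j h2 h3,
    Finset.filter_true_of_mem fun J hJ => desc_one (one_le_of_mem_V hJ)]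

theorem sum_len_desc {a N i : ℕ} (hi : i ∈ V a) (haN : a ≤ N) :
    ∑ J ∈ (V N).filter (Desc i), len J = len i :=
  (sum_desc hi haN fun _ _ _ _ h => len_add (one_le_of_mem_V h)).symm

/-- All cells whose level lies in `S`. -/
def VS (S : Finset ℕ) : Finset ℕ := S.biUnion V

theorem mem_VS {S : Finset ℕ} {v : ℕ} : v ∈ VS S ↔ ∃ a ∈ S, v ∈ V a := Finset.mem_biUnion

theorem VS_empty : VS ∅ = ∅ := rfl

theorem VS_insert (b : ℕ) (S : Finset ℕ) : VS (insert b S) = V b ∪ VS S := Finset.biUnion_insert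

theorem VS_mono {S S' : Finset ℕ} (h : S ⊆ S') : VS S ⊆ VS S' := Finset.biUnion_subset_biUnion_of_subset_left _ h

theorem disjoint_V_VS {b : ℕ} {S : Finset ℕ} (hb : b ∉ S) : Disjoint (V b) (VS S) :=
  Finset.disjoint_left.2 fun v h1 h2 => by
    obtain ⟨a, ha, h⟩ := mem_VS.1 h2
    exact hb (level_unique h1 h ▸ ha)

theorem sum_VS {M : Type*} [AddCommMonoid M] (S : Finset ℕ) (f : ℕ → M) :
    ∑ v ∈ VS S, f v = ∑ a ∈ S, ∑ v ∈ V a, f v :=
  Finset.sum_biUnion fun _ _ _ _ h => disjoint_V h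

end Pool.Agent.MP_fc1aea_an
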